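import Mathlib

set_option autoImplicit false

namespace Pool.Agent.Results.MP_b8a264_an.No

open Matrix MeasureTheory Finset
open scoped ENNReal

/-- A tuple of linear maps from `ℝ^d` to `ℝ^(e i)`, as matrices. -/
abbrev Maps {k : ℕ} (d : ℕ) (e : Fin k → ℕ) := ∀ i, Matrix (Fin (e i)) (Fin d) ℝ

/-- A tuple of square matrices of sizes `e i`. -/
abbrev Sq {k : ℕ} (e : Fin k → ℕ) := ∀ i, Matrix (Fin (e i)) (Fin (e i)) ℝ

section
variable {k d : ℕ} {e : Fin k → ℕ}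

/-- A Brascamp-Lieb datum: onto maps and positive exponents. -/
def IsDatum (B : Maps d e) (c : Fin k → ℝ) : Prop :=
  (∀ i, Function.Surjective (B i).mulVec) ∧ ∀ i, 0 < c i

/-- The Brascamp-Lieb inequality holds with a finite constant. -/
def Feasible (B : Maps d e) (c : Fin k → ℝ) : Prop :=
  ∃ C : ℝ≥0∞, C < ∞ ∧ ∀ f : ∀ i, (Fin (e i) → ℝ) → ℝ≥0∞, (∀ i, AEMeasurable (f i)) →
    ∫⁻ x, ∏ i, f i (B i *ᵥ x) ^ c i ≤ C * ∏ i, (∫⁻ y, f i y) ^ c i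

noncomputable def num (c : Fin k → ℝ) (A : Sq e) : ℝ := ∏ i, (A i).det ^ c i

noncomputable def den (B : Maps d e) (c : Fin k → ℝ) (A : Sq e) : ℝ :=
  (∑ i, c i • ((B i)ᵀ * A i * B i)).det

/-- The gaussian supremum of `num / den` is finite and attained. -/
def GaussExt (B : Maps d e) (c : Fin k → ℝ) : Prop :=
  ∃ A : Sq e, (∀ i, (A i).PosDef) ∧ 0 < den B c A ∧ ∀ A' : Sq e, (∀ i, (A' i).PosDef) →
    0 < den B c A' ∧ num c A' / den B c A' ≤ num c A / den B c A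

end

lemma det_id (P : Matrix (Fin 3) (Fin 3) ℝ) (n : Fin 3 → ℝ) :
    ∃ q : ℝ, ∀ t s : ℝ, (t • P + s • vecMulVec n n).det = t ^ 3 * P.det + t ^ 2 * s * q := by
  refine ⟨n ⬝ᵥ P.adjugate *ᵥ n, fun t s => ?_⟩
  simp [det_fin_three, adjugate_fin_three, vecMulVec_apply, dotProduct, mulVec, Fin.sum_univ_three]
  ring

lemma inj {B : Matrix (Fin 2) (Fin 3) ℝ} (h : Function.Surjective B.mulVec) {u : Fin 2 → ℝ}
    (hu : Bᵀ *ᵥ u = 0) : u = 0 := by
  obtain ⟨y, hy⟩ := h u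
  rw [← dotProduct_self_eq_zero]
  nth_rw 2 [← hy]
  rw [dotProduct_mulVec, ← mulVec_transpose, hu, zero_dotProduct]

lemma pd (u : Fin 2 → ℝ) {t : ℝ} (ht : 0 < t) : (t • (1 : Matrix _ _ ℝ) + vecMulVec u u).PosDef :=
  (PosDef.one.smul ht).add_posSemidef (by simpa using posSemidef_vecMulVec_self_star u)

lemma pd_det (u : Fin 2 → ℝ) (t : ℝ) :
    (t • (1 : Matrix _ _ ℝ) + vecMulVec u u).det = t * (u ⬝ᵥ u) + t ^ 2 := by
  simp [det_fin_two, vecMulVec_apply, dotProduct, Fin.sum_univ_two]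
  ring

lemma conj (B : Matrix (Fin 2) (Fin 3) ℝ) (u : Fin 2 → ℝ) (t : ℝ) :
    Bᵀ * (t • (1 : Matrix _ _ ℝ) + vecMulVec u u) * B =
      t • (Bᵀ * B) + vecMulVec (Bᵀ *ᵥ u) (Bᵀ *ᵥ u) := by
  rw [Matrix.mul_add, Matrix.add_mul, mul_vecMulVec, vecMulVec_mul, mulVec_transpose]
  simp

lemma core (B1 B2 : Matrix (Fin 2) (Fin 3) ℝ) (B3 : Matrix (Fin 1) (Fin 3) ℝ) (c1 c2 c3 : ℝ)
    (h1 : Function.Surjective B1.mulVec) (h2 : Function.Surjective B2.mulVec)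
    (p1 : 0 < c1) (p2 : 0 < c2) (hk : ∀ x, B1 *ᵥ x = 0 → B2 *ᵥ x = 0 → x = 0)
    (A1 A2 : Matrix (Fin 2) (Fin 2) ℝ) (A3 : Matrix (Fin 1) (Fin 1) ℝ)
    (a1 : A1.PosDef) (a2 : A2.PosDef) (a3 : A3.PosDef) (D : ℝ)
    (hD : D = (c1 • (B1ᵀ * A1 * B1) + c2 • (B2ᵀ * A2 * B2) + c3 • (B3ᵀ * A3 * B3)).det)
    (D0 : 0 < D)
    (H : ∀ (X1 X2 : Matrix (Fin 2) (Fin 2) ℝ) (X3 : Matrix (Fin 1) (Fin 1) ℝ),
      X1.PosDef → X2.PosDef → X3.PosDef → X1.det ^ c1 * X2.det ^ c2 * X3.det ^ c3 * D ≤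
        A1.det ^ c1 * A2.det ^ c2 * A3.det ^ c3 *
        (c1 • (B1ᵀ * X1 * B1) + c2 • (B2ᵀ * X2 * B2) + c3 • (B3ᵀ * X3 * B3)).det) : False := by
  have d1 := a1.det_pos
  have d2 := a2.det_pos
  have d3 := a3.det_pos
  set N := A1.det ^ c1 * A2.det ^ c2 * A3.det ^ c3 with hN
  have N0 : 0 < N := by positivity
  have s1 : 2 * c1 + 2 * c2 + c3 ≤ 3 := by
    have := H _ _ _ (a1.smul (two_pos (α := ℝ))) (a2.smul (two_pos (α := ℝ))) (a3.smul (two_pos (α := ℝ)))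
    simp only [Matrix.mul_smul, Matrix.smul_mul, smul_comm _ (2 : ℝ), ← smul_add, det_smul,
      Fintype.card_fin, ← hD] at this
    rw [Real.mul_rpow (by positivity) d1.le, Real.mul_rpow (by positivity) d2.le,
      Real.mul_rpow (by positivity) d3.le, ← Real.rpow_natCast, ← Real.rpow_natCast,
      ← Real.rpow_natCast, ← Real.rpow_mul two_pos.le, ← Real.rpow_mul two_pos.le,
      ← Real.rpow_mul two_pos.le] at this
    have h : (2 : ℝ) ^ (2 * c1 + 2 * c2 + c3) * (N * D) ≤ 2 ^ (3 : ℝ) * (N * D) := by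
      rw [Real.rpow_add two_pos, Real.rpow_add two_pos]
      push_cast at this
      rw [one_mul] at this
      linarith
    exact (Real.rpow_le_rpow_left_iff one_lt_two).1 (le_of_mul_le_mul_right h (by positivity))
  have s2 : 2 ≤ c1 + c2 + c3 := by
    obtain ⟨⟨u, v⟩, huv, h0⟩ := (Submodule.ne_bot_iff _).1 (LinearMap.ker_ne_bot_of_finrank_lt
      (f := (toLin' B1ᵀ).coprod (-toLin' B2ᵀ)) (by simp))
    have e : B1ᵀ *ᵥ u = B2ᵀ *ᵥ v := by simpa [add_neg_eq_zero] using huv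
    have u0 : u ≠ 0 := fun h => h0 (by
      rw [h, mulVec_zero] at e
      rw [h, inj h2 e.symm]; rfl)
    have v0 : v ≠ 0 := fun h => u0 (inj h1 (by rw [e, h, mulVec_zero]))
    have uu : 0 < u ⬝ᵥ u := by simpa using dotProduct_self_star_pos_iff.2 u0
    have vv : 0 < v ⬝ᵥ v := by simpa using dotProduct_self_star_pos_iff.2 v0
    obtain ⟨q, hq⟩ := det_id (c1 • (B1ᵀ * B1) + c2 • (B2ᵀ * B2) + c3 • (B3ᵀ * B3)) (B1ᵀ *ᵥ u)
    set p := (c1 • (B1ᵀ * B1) + c2 • (B2ᵀ * B2) + c3 • (B3ᵀ * B3)).det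
    by_contra hc
    have K0 : 0 < (u ⬝ᵥ u) ^ c1 * (v ⬝ᵥ v) ^ c2 * D := by positivity
    have lim : Filter.Tendsto (fun t : ℝ => N * (t * p + (c1 + c2) * q) * t ^ (2 - (c1 + c2 + c3)))
        (nhdsWithin 0 (Set.Ioi 0)) (nhds 0) := by
      have : ContinuousAt (fun t : ℝ => N * (t * p + (c1 + c2) * q) * t ^ (2 - (c1 + c2 + c3))) 0 :=
        (by fun_prop : ContinuousAt (fun t : ℝ => N * (t * p + (c1 + c2) * q)) 0).mul
          (Real.continuousAt_rpow_const _ _ (Or.inr (by linarith)))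
      have h := this.tendsto
      simp only [Real.zero_rpow (show 2 - (c1 + c2 + c3) ≠ 0 by linarith), mul_zero] at h
      exact h.mono_left nhdsWithin_le_nhds
    obtain ⟨t, ht1, ht⟩ := ((lim.eventually_lt_const K0).and self_mem_nhdsWithin).exists
    have ht : 0 < t := ht
    have := H _ _ _ (pd u ht) (pd v ht) (PosDef.one.smul ht)
    have e2 : c1 • (B1ᵀ * (t • (1 : Matrix _ _ ℝ) + vecMulVec u u) * B1) +
        c2 • (B2ᵀ * (t • (1 : Matrix _ _ ℝ) + vecMulVec v v) * B2) +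
        c3 • (B3ᵀ * (t • (1 : Matrix (Fin 1) (Fin 1) ℝ)) * B3) =
        t • (c1 • (B1ᵀ * B1) + c2 • (B2ᵀ * B2) + c3 • (B3ᵀ * B3)) +
          (c1 + c2) • vecMulVec (B1ᵀ *ᵥ u) (B1ᵀ *ᵥ u) := by
      rw [conj, conj, ← e, Matrix.mul_smul, Matrix.smul_mul, Matrix.mul_one]
      module
    rw [e2, hq, pd_det, pd_det, det_smul, det_one, Fintype.card_fin, pow_one, mul_one] at this
    have b1 : t ^ c1 * (u ⬝ᵥ u) ^ c1 ≤ (t * (u ⬝ᵥ u) + t ^ 2) ^ c1 := by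
      rw [← Real.mul_rpow ht.le uu.le]
      exact Real.rpow_le_rpow (by positivity) (by nlinarith) p1.le
    have b2 : t ^ c2 * (v ⬝ᵥ v) ^ c2 ≤ (t * (v ⬝ᵥ v) + t ^ 2) ^ c2 := by
      rw [← Real.mul_rpow ht.le vv.le]
      exact Real.rpow_le_rpow (by positivity) (by nlinarith) p2.le
    have b3 : t ^ c1 * (u ⬝ᵥ u) ^ c1 * (t ^ c2 * (v ⬝ᵥ v) ^ c2) * t ^ c3 * D ≤
        (t * (u ⬝ᵥ u) + t ^ 2) ^ c1 * (t * (v ⬝ᵥ v) + t ^ 2) ^ c2 * t ^ c3 * D := by gcongr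
    have b4 : t ^ (2 - (c1 + c2 + c3)) * (t ^ c1 * t ^ c2 * t ^ c3) = t ^ 2 := by
      rw [← Real.rpow_add ht, ← Real.rpow_add ht, ← Real.rpow_add ht, sub_add_cancel,
        Real.rpow_two]
    have b5 := mul_lt_mul_of_pos_right ht1 (show 0 < t ^ c1 * t ^ c2 * t ^ c3 by positivity)
    rw [mul_assoc (N * _), b4] at b5
    nlinarith
  have M0 : (c1 • (B1ᵀ * A1 * B1) + c2 • (B2ᵀ * A2 * B2)).PosDef := by
    have q1 := (a1.posSemidef.conjTranspose_mul_mul_same B1).smul p1.le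
    have q2 := (a2.posSemidef.conjTranspose_mul_mul_same B2).smul p2.le
    rw [conjTranspose_eq_transpose_of_trivial] at q1 q2
    refine PosDef.of_dotProduct_mulVec_pos (q1.add q2).1 fun x hx => ?_
    have r : ∀ (B : Matrix (Fin 2) (Fin 3) ℝ) (A : Matrix (Fin 2) (Fin 2) ℝ),
        star x ⬝ᵥ (Bᵀ * A * B) *ᵥ x = star (B *ᵥ x) ⬝ᵥ A *ᵥ (B *ᵥ x) := fun B A => by
      rw [star_trivial, star_trivial, Matrix.mul_assoc, ← mulVec_mulVec, dotProduct_mulVec,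
        vecMul_transpose, mulVec_mulVec]
    rw [add_mulVec, smul_mulVec, smul_mulVec, dotProduct_add, dotProduct_smul, dotProduct_smul,
      r, r, smul_eq_mul, smul_eq_mul]
    have w1 := a1.posSemidef.dotProduct_mulVec_nonneg (B1 *ᵥ x)
    have w2 := a2.posSemidef.dotProduct_mulVec_nonneg (B2 *ᵥ x)
    by_cases z : B1 *ᵥ x = 0
    · have := a2.dotProduct_mulVec_pos (fun h => hx (hk x z h))
      positivity
    · have := a1.dotProduct_mulVec_pos z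
      positivity
  obtain ⟨q, hq⟩ := det_id (c1 • (B1ᵀ * A1 * B1) + c2 • (B2ᵀ * A2 * B2)) (B3 0)
  have e3 : B3ᵀ * A3 * B3 = A3.det • vecMulVec (B3 0) (B3 0) := by
    ext i j
    simp [Matrix.mul_apply, vecMulVec_apply]
    ring
  have := H _ _ _ a1 a2 (a3.smul (two_pos (α := ℝ)))
  rw [Matrix.mul_smul, Matrix.smul_mul, e3, smul_smul, smul_smul, det_smul, Fintype.card_fin,
    pow_one, Real.mul_rpow two_pos.le d3.le] at this
  rw [e3, smul_smul] at hD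
  have f1 := hq 1 (c3 * A3.det)
  have f2 := hq 1 (c3 * 2 * A3.det)
  rw [one_smul] at f1 f2
  rw [f2] at this
  rw [f1] at hD
  have f3 : (2 : ℝ) ^ (1 : ℝ) ≤ 2 ^ c3 := Real.rpow_le_rpow_of_exponent_le one_le_two (by linarith)
  rw [Real.rpow_one] at f3
  have f4 := mul_le_mul_of_nonneg_right f3 (mul_pos N0 D0).le
  have f5 := mul_pos N0 M0.det_pos
  have f6 : A1.det ^ c1 * A2.det ^ c2 * (2 ^ c3 * A3.det ^ c3) * D = 2 ^ c3 * (N * D) := by
    rw [hN]; ring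
  rw [f6] at this
  rw [hD] at f4 this
  nlinarith

lemma bl (F1 F2 : (Fin 2 → ℝ) → ℝ≥0∞) (F3 : (Fin 1 → ℝ) → ℝ≥0∞) (m1 : Measurable F1)
    (m2 : Measurable F2) (m3 : Measurable F3) :
    ∫⁻ x : Fin 3 → ℝ, F1 ![x 1, x 2] ^ (1 / 2 : ℝ) * F2 ![x 0 + x 1, x 2] ^ (1 / 2 : ℝ) *
      F3 ![x 0] ≤ (∫⁻ y, F1 y) ^ (1 / 2 : ℝ) * (∫⁻ y, F2 y) ^ (1 / 2 : ℝ) * ∫⁻ y, F3 y := by
  have h := (volume_preserving_piFinSuccAbove (fun _ : Fin 3 => ℝ) 0).symm
  rw [← h.lintegral_comp_emb (MeasurableEquiv.measurableEmbedding _)]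
  have e : ∀ z : ℝ × (Fin 2 → ℝ), (fun x : Fin 3 → ℝ => F1 ![x 1, x 2] ^ (1 / 2 : ℝ) *
      F2 ![x 0 + x 1, x 2] ^ (1 / 2 : ℝ) * F3 ![x 0])
      ((MeasurableEquiv.piFinSuccAbove (fun _ : Fin 3 => ℝ) 0).symm z) =
      F1 z.2 ^ (1 / 2 : ℝ) * F2 (z.2 + ![z.1, 0]) ^ (1 / 2 : ℝ) * F3 ![z.1] := by
    rintro ⟨u, p⟩
    have e1 : (![p 0, p 1] : Fin 2 → ℝ) = p := by ext i; fin_cases i <;> rfl
    have e2 : (![u + p 0, p 1] : Fin 2 → ℝ) = p + ![u, 0] := by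
      ext i; fin_cases i <;> simp [add_comm]
    rw [← e2]
    exact congrArg (fun w => F1 w ^ (1 / 2 : ℝ) * F2 ![u + p 0, p 1] ^ (1 / 2 : ℝ) * F3 ![u]) e1
  have mv : Measurable fun u : ℝ => (![u] : Fin 1 → ℝ) :=
    measurable_pi_lambda _ fun i => by fin_cases i; exact measurable_id
  have mw : Measurable fun u : ℝ => (![u, 0] : Fin 2 → ℝ) :=
    measurable_pi_lambda _ fun i => by fin_cases i <;> simp <;> fun_prop
  simp only [e]
  rw [Measure.volume_eq_prod, lintegral_prod _ (by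
    refine Measurable.aemeasurable (Measurable.mul (Measurable.mul ?_ ?_) ?_)
    · exact (m1.comp measurable_snd).pow_const _
    · exact (m2.comp (measurable_snd.add (mw.comp measurable_fst))).pow_const _
    · exact m3.comp (mv.comp measurable_fst))]
  have e3 : ∫⁻ y, F3 y = ∫⁻ u : ℝ, F3 ![u] := by
    refine ((volume_preserving_funUnique (Fin 1) ℝ).symm.lintegral_comp_emb
      (MeasurableEquiv.measurableEmbedding _) F3).symm.trans ?_
    refine lintegral_congr fun u => congrArg F3 ?_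
    ext i; fin_cases i; rfl
  rw [e3, ← lintegral_const_mul (f := fun u : ℝ => F3 ![u]) _ (m3.comp mv)]
  refine lintegral_mono fun u => ?_
  have m2' : Measurable fun p : Fin 2 → ℝ => F2 (p + ![u, 0]) := m2.comp (measurable_add_const _)
  simp only
  rw [lintegral_mul_const (f := fun p => F1 p ^ (1 / 2 : ℝ) * F2 (p + ![u, 0]) ^ (1 / 2 : ℝ)) _
    ((m1.pow_const _).mul (m2'.pow_const _)),
    ← lintegral_add_right_eq_self F2 ![u, 0]]
  exact mul_le_mul_left (ENNReal.lintegral_mul_norm_pow_le m1.aemeasurable m2'.aemeasurable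
    (by norm_num) (by norm_num) (by norm_num)) _

def e0 : Fin 3 → ℕ
  | 0 => 2
  | 1 => 2
  | 2 => 1

def B0 : Maps 3 e0
  | 0 => (!![0, 1, 0; 0, 0, 1] : Matrix (Fin 2) (Fin 3) ℝ)
  | 1 => (!![1, 1, 0; 0, 0, 1] : Matrix (Fin 2) (Fin 3) ℝ)
  | 2 => (!![1, 0, 0] : Matrix (Fin 1) (Fin 3) ℝ)

def tri (X1 X2 : Matrix (Fin 2) (Fin 2) ℝ) (X3 : Matrix (Fin 1) (Fin 1) ℝ) : Sq e0
  | 0 => X1
  | 1 => X2
  | 2 => X3

lemma B0_apply (x : Fin 3 → ℝ) : B0 0 *ᵥ x = (![x 1, x 2] : Fin 2 → ℝ) ∧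
    B0 1 *ᵥ x = (![x 0 + x 1, x 2] : Fin 2 → ℝ) ∧ B0 2 *ᵥ x = (![x 0] : Fin 1 → ℝ) := by
  refine ⟨?_, ?_, ?_⟩
  · show (!![0, 1, 0; 0, 0, 1] : Matrix (Fin 2) (Fin 3) ℝ) *ᵥ x = _
    ext i; fin_cases i <;> simp [mulVec, dotProduct, Fin.sum_univ_three]
  · show (!![1, 1, 0; 0, 0, 1] : Matrix (Fin 2) (Fin 3) ℝ) *ᵥ x = _
    ext i; fin_cases i <;> simp [mulVec, dotProduct, Fin.sum_univ_three]
  · show (!![1, 0, 0] : Matrix (Fin 1) (Fin 3) ℝ) *ᵥ x = _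
    ext i; fin_cases i; simp [mulVec, dotProduct, Fin.sum_univ_three]

lemma surj : ∀ i, Function.Surjective (B0 i).mulVec := by
  intro i
  fin_cases i
  · intro (y : Fin 2 → ℝ)
    exact ⟨![0, y 0, y 1], (B0_apply _).1.trans (by ext i; fin_cases i <;> rfl)⟩
  · intro (y : Fin 2 → ℝ)
    exact ⟨![0, y 0, y 1], (B0_apply _).2.1.trans (by ext i; fin_cases i <;> simp)⟩
  · intro (y : Fin 1 → ℝ)
    exact ⟨![y 0, 0, 0], (B0_apply _).2.2.trans (by ext i; fin_cases i; rfl)⟩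

lemma small {a b c x y z : ℝ} (ha : |a| < 1 / 10) (hb : |b| < 1 / 10) (hc : |c| < 1 / 10) :
    |a * x + b * y + c * z| ≤ 1 / 10 * (|x| + |y| + |z|) := by
  refine (abs_add_three _ _ _).trans ?_
  rw [abs_mul, abs_mul, abs_mul]
  nlinarith [abs_nonneg x, abs_nonneg y, abs_nonneg z]

theorem result : ∃ (k d : ℕ) (e : Fin k → ℕ) (B : Maps d e) (c : Fin k → ℝ) (ε : ℝ),
    1 ≤ k ∧ 1 ≤ d ∧ (∀ i, 1 ≤ e i) ∧ IsDatum B c ∧ Feasible B c ∧ 0 < ε ∧
    ∀ (B' : Maps d e) (c' : Fin k → ℝ), IsDatum B' c' →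
      (∀ i a b, |B i a b - B' i a b| < ε) → ¬ GaussExt B' c' := by
  refine ⟨3, 3, e0, B0, ![1 / 2, 1 / 2, 1], 1 / 10, by norm_num, by norm_num, by decide,
    ⟨surj, fun i => by fin_cases i <;> simp⟩, ⟨1, ENNReal.one_lt_top, fun f hf => ?_⟩, by norm_num,
    fun B c hB hc ⟨A, hA, D0, H⟩ => ?_⟩
  · have ae : ∀ i, ∀ᵐ x, f i (B0 i *ᵥ x) = (hf i).mk _ (B0 i *ᵥ x) := by
      intro i
      obtain ⟨r, -, hr⟩ := (toLin' (B0 i)).exists_map_addHaar_eq_smul_addHaar volume volume (surj i)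
      have : ∀ᵐ y ∂(Measure.map (toLin' (B0 i)) volume), f i y = (hf i).mk _ y := by
        rw [hr]
        exact Measure.ae_smul_measure (hf i).ae_eq_mk _
      exact ae_of_ae_map (toLin' (B0 i)).continuous_of_finiteDimensional.aemeasurable this
    rw [lintegral_congr_ae ((ae_all_iff.2 ae).mono fun x hx => by simp only [hx]; rfl), one_mul]
    simp only [fun i => lintegral_congr_ae (hf i).ae_eq_mk, Fin.prod_univ_three, B0_apply]
    have := bl _ _ _ (hf 0).measurable_mk (hf 1).measurable_mk (hf 2).measurable_mk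
    simp only [one_div] at this
    simp only [one_div, cons_val_zero, cons_val_one, Matrix.cons_val, ENNReal.rpow_one]
    exact this
  · refine core (B 0) (B 1) (B 2) (c 0) (c 1) (c 2) (hB.1 0) (hB.1 1) (hB.2 0) (hB.2 1)
      (fun x h1 h2 => ?_) (A 0) (A 1) (A 2) (hA 0) (hA 1) (hA 2) _
      (by rw [den, Fin.sum_univ_three]; rfl) D0 fun X1 X2 X3 x1 x2 x3 => ?_
    · have r : ∀ (i : Fin 3) (a : Fin (e0 i)), (B i *ᵥ x) a = 0 →
          |(B0 i *ᵥ x) a| ≤ 1 / 10 * (|x 0| + |x 1| + |x 2|) := by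
        intro i a h
        have := small (x := x 0) (y := x 1) (z := x 2) (hc i a 0) (hc i a 1) (hc i a 2)
        simp only [mulVec, dotProduct, Fin.sum_univ_three] at h ⊢
        convert this using 2
        linarith
      have r1 := r 0 (0 : Fin 2) (congrFun h1 0)
      have r2 := r 0 (1 : Fin 2) (congrFun h1 1)
      have r3 := r 1 (0 : Fin 2) (congrFun h2 0)
      rw [(B0_apply x).1] at r1 r2
      rw [(B0_apply x).2.1] at r3
      have r1 : |x 1| ≤ _ := r1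
      have r2 : |x 2| ≤ _ := r2
      have r3 : |x 0 + x 1| ≤ _ := r3
      have r4 := abs_sub (x 0 + x 1) (x 1)
      rw [add_sub_cancel_right] at r4
      have z0 := abs_nonneg (x 0)
      have z1 := abs_nonneg (x 1)
      have z2 := abs_nonneg (x 2)
      ext i
      fin_cases i
      · exact abs_eq_zero.1 (show |x 0| = 0 by linarith)
      · exact abs_eq_zero.1 (show |x 1| = 0 by linarith)
      · exact abs_eq_zero.1 (show |x 2| = 0 by linarith)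
    · obtain ⟨h1, h2⟩ := H (tri X1 X2 X3) fun i => by fin_cases i <;> assumption
      rw [div_le_div_iff₀ h1 D0, num, num, Fin.prod_univ_three, Fin.prod_univ_three,
        den.eq_1 B c (tri X1 X2 X3), Fin.sum_univ_three] at h2
      exact h2

end Pool.Agent.Results.MP_b8a264_an.No
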